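import Mathlib
import Pool.Agent.H238R2.HY.Struct

set_option autoImplicit false

/-!
# Zelinka's inequality `dom(L(G)) ≥ δ(G)`

Let `I` be a maximal independent set of `G`, `S` its complement and `k = δ(G)`.  Every vertex of `S`
has a neighbour in `I`.  Split off the surplus edges of the vertices of degree `≥ k` in `G[S]` into
pendant edges, so that all degrees become `≤ k - 1`, and colour the edges of the resulting graph
with `k` colours by Vizing's theorem.  Every vertex `v` of `S` then sees `min (deg_S v, k - 1)`
colours and has enough edges into `I` to see the missing colours on them.  So every vertex of `S`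
sees every colour, and every edge has an end in `S`.
-/

namespace Pool.Agent.Results.MP_7b5b6d_co.EdgeDomatic

/-- `X` is a dominating set of the graph `H`: every vertex is in `X` or adjacent to a vertex
of `X`. -/
def IsDominating {W : Type} (H : SimpleGraph W) (X : Set W) : Prop :=
  ∀ w, w ∈ X ∨ ∃ x ∈ X, H.Adj w x

/-- The vertex set of `H` can be partitioned into `k` (non-empty) dominating sets. -/
def HasDomaticPartition {W : Type} (H : SimpleGraph W) (k : ℕ) : Prop :=
  ∃ f : W → Fin k, Function.Surjective f ∧ ∀ c, IsDominating H {w | f w = c}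

/-- The domatic number: the largest `k` for which there is a partition into `k` dominating
sets. -/
noncomputable def domaticNumber {W : Type} (H : SimpleGraph W) : ℕ :=
  sSup {k | HasDomaticPartition H k}

section core

variable {V : Type} [Fintype V]

open Finset in
/-- a maximal independent set -/
theorem exists_maximal_indep (G : SimpleGraph V) :
    ∃ I : Finset V, (∀ u ∈ I, ∀ v ∈ I, ¬ G.Adj u v) ∧ ∀ v, v ∉ I → ∃ u ∈ I, G.Adj v u := by
  classical
  obtain ⟨I, hI, hmax⟩ := Finset.exists_max_image
    ((univ : Finset (Finset V)).filter (fun J => ∀ u ∈ J, ∀ v ∈ J, ¬ G.Adj u v)) Finset.card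
    ⟨∅, by simp⟩
  rw [mem_filter] at hI
  refine ⟨I, hI.2, fun v hv => ?_⟩
  by_contra hcon
  push Not at hcon
  have hins : insert v I ∈
      (univ : Finset (Finset V)).filter (fun J => ∀ u ∈ J, ∀ v ∈ J, ¬ G.Adj u v) := by
    rw [mem_filter]
    refine ⟨mem_univ _, fun a ha b hb hab => ?_⟩
    rw [mem_insert] at ha hb
    rcases ha with rfl | ha
    · rcases hb with rfl | hb
      · exact G.loopless.irrefl _ hab
      · exact hcon b hb hab
    · rcases hb with rfl | hb
      · exact hcon a ha hab.symm
      · exact hI.2 a ha b hb hab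
  have := hmax _ hins
  rw [card_insert_of_notMem hv] at this
  omega

open Finset in
/-- The key colouring: with `k ≥ 2` at most the minimum degree and `I` a maximal independent set,
the edges can be `k`-coloured so that every vertex outside `I` sees every colour. -/
theorem key (G : SimpleGraph V) [DecidableRel G.Adj] (k : ℕ) (hk : 2 ≤ k)
    (hdeg : ∀ v, k ≤ G.degree v) (I : Finset V)
    (hI2 : ∀ v, v ∉ I → ∃ u ∈ I, G.Adj v u) :
    ∃ F : V → V → ℕ, (∀ u v, F u v = F v u) ∧ (∀ u v, F u v < k) ∧
      ∀ v, v ∉ I → ∀ c < k, ∃ u, G.Adj v u ∧ F v u = c := by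
  classical
  -- neighbours in `S` and in `I`
  set NS : V → Finset V := fun v => (G.neighborFinset v).filter (fun u => u ∉ I) with hNS
  set NI : V → Finset V := fun v => (G.neighborFinset v).filter (fun u => u ∈ I) with hNI
  have hcard : ∀ v, (NI v).card + (NS v).card = G.degree v := by
    intro v
    rw [← SimpleGraph.card_neighborFinset_eq_degree]
    exact Finset.card_filter_add_card_filter_not (s := G.neighborFinset v) (fun u => u ∈ I)
  have hKex : ∀ v, ∃ K ⊆ NS v, K.card = min (NS v).card (k - 1) :=
    fun v => Finset.exists_subset_card_eq (min_le_left _ _)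
  choose K hKsub hKcard using hKex
  -- the split graph
  let φ : V → V → V × Option V := fun v u => (v, if u ∈ K v then none else some u)
  let R : V × Option V → V × Option V → Prop := fun x y =>
    ∃ u v, (G.Adj u v ∧ u ∉ I ∧ v ∉ I) ∧ x = φ u v ∧ y = φ v u
  let H : SimpleGraph (V × Option V) :=
    { Adj := R
      symm := ⟨by
        rintro x y ⟨u, v, ⟨h1, h2, h3⟩, h4, h5⟩
        exact ⟨v, u, ⟨h1.symm, h3, h2⟩, h5, h4⟩⟩
      loopless := ⟨by
        rintro x ⟨u, v, ⟨h1, h2, h3⟩, h4, h5⟩
        have h6 : (φ u v).1 = (φ v u).1 := by rw [← h4, ← h5]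
        exact h1.ne h6⟩ }
  have hHadj : ∀ x y, H.Adj x y ↔
      ∃ u v, (G.Adj u v ∧ u ∉ I ∧ v ∉ I) ∧ x = φ u v ∧ y = φ v u := fun x y => Iff.rfl
  have hHdeg : ∀ x, H.degree x ≤ k - 1 := by
    rintro ⟨v, o⟩
    rw [← SimpleGraph.card_neighborFinset_eq_degree]
    cases o with
    | none =>
      have hsub : H.neighborFinset (v, none) ⊆ (K v).image (fun u => φ u v) := by
        intro y hy
        rw [SimpleGraph.mem_neighborFinset, hHadj] at hy
        obtain ⟨a, b, ⟨h1, h2, h3⟩, h4, h5⟩ := hy
        have hav : v = a := congrArg Prod.fst h4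
        subst hav
        have hb : b ∈ K v := by
          by_contra hb
          have : (none : Option V) = if b ∈ K v then none else some b := congrArg Prod.snd h4
          rw [if_neg hb] at this
          exact absurd this (by simp)
        exact mem_image.2 ⟨b, hb, h5.symm⟩
      refine (card_le_card hsub).trans (card_image_le.trans ?_)
      rw [hKcard]; exact min_le_right _ _
    | some w =>
      have hsub : H.neighborFinset (v, some w) ⊆ {φ w v} := by
        intro y hy
        rw [SimpleGraph.mem_neighborFinset, hHadj] at hy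
        obtain ⟨a, b, ⟨h1, h2, h3⟩, h4, h5⟩ := hy
        have hav : v = a := congrArg Prod.fst h4
        subst hav
        have : (some w : Option V) = if b ∈ K v then none else some b := congrArg Prod.snd h4
        have hb : b ∉ K v := by
          intro hb
          rw [if_pos hb] at this
          exact absurd this (by simp)
        rw [if_neg hb] at this
        have hbw : w = b := Option.some.inj this
        subst hbw
        exact mem_singleton.2 h5
      refine (card_le_card hsub).trans ?_
      rw [card_singleton]; omega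
  obtain ⟨c, hc1, hc2, hc3⟩ := Pool.Agent.H238R2.HY.vizing H (k - 1) hHdeg
  -- the colours seen at `v` on the edges to `K v`
  let col : V → V → ℕ := fun u v => c (φ u v) (φ v u)
  have hcol_symm : ∀ u v, col u v = col v u := fun u v => hc1 _ _
  have hcol_lt : ∀ u v, G.Adj u v → u ∉ I → v ∉ I → col u v < k := by
    intro u v h hu hv
    have := hc2 (φ u v) (φ v u) ⟨u, v, ⟨h, hu, hv⟩, rfl, rfl⟩
    show c (φ u v) (φ v u) < k
    omega
  have hK_adj : ∀ v, ∀ u ∈ K v, G.Adj v u ∧ u ∉ I := by
    intro v u hu
    have := hKsub v hu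
    rw [hNS] at this
    simp only [mem_filter, SimpleGraph.mem_neighborFinset] at this
    exact this
  have hinj : ∀ v, v ∉ I → Set.InjOn (fun u => col v u) (K v) := by
    intro v hv a ha b hb hab
    by_contra hne
    have h1 := hK_adj v a ha
    have h2 := hK_adj v b hb
    have ha' : φ v a = (v, none) := by simp only [φ]; rw [if_pos (mem_coe.1 ha)]
    have hb' : φ v b = (v, none) := by simp only [φ]; rw [if_pos (mem_coe.1 hb)]
    have h3 : H.Adj (v, none) (φ a v) := ⟨v, a, ⟨h1.1, hv, h1.2⟩, ha'.symm, rfl⟩
    have h4 : H.Adj (v, none) (φ b v) := ⟨v, b, ⟨h2.1, hv, h2.2⟩, hb'.symm, rfl⟩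
    have h5 : φ a v ≠ φ b v := by
      intro h
      exact hne (congrArg Prod.fst h)
    apply hc3 _ _ _ h3 h4 h5
    have h6 : c (φ v a) (φ a v) = c (φ v b) (φ b v) := hab
    rwa [ha', hb'] at h6
  -- missing colours
  let M : V → Finset ℕ := fun v => (range k) \ (K v).image (fun u => col v u)
  have hMcard : ∀ v, v ∉ I → (M v).card ≤ (NI v).card := by
    intro v hv
    have hsub : (K v).image (fun u => col v u) ⊆ range k := by
      intro x hx
      rw [mem_image] at hx
      obtain ⟨u, hu, rfl⟩ := hx
      rw [mem_range]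
      exact hcol_lt v u (hK_adj v u hu).1 hv (hK_adj v u hu).2
    have h1 : (M v).card = k - (K v).card := by
      simp only [M]
      rw [card_sdiff_of_subset hsub, card_range, card_image_of_injOn (hinj v hv)]
    obtain ⟨u, hu, huv⟩ := hI2 v hv
    have hpos : 1 ≤ (NI v).card := by
      rw [Nat.one_le_iff_ne_zero, Finset.card_ne_zero]
      exact ⟨u, by rw [hNI]; simp only [mem_filter, SimpleGraph.mem_neighborFinset]; exact ⟨huv, hu⟩⟩
    have h2 := hcard v
    have h3 := hdeg v
    have h4 := hKcard v
    rcases le_total (NS v).card (k - 1) with h | h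
    · rw [min_eq_left h] at h4; omega
    · rw [min_eq_right h] at h4; omega
  have hgex : ∀ v, ∃ g : V → ℕ, (∀ u, g u < k) ∧ (v ∉ I → ∀ m ∈ M v, ∃ u ∈ NI v, g u = m) := by
    intro v
    by_cases hv : v ∈ I
    · exact ⟨fun _ => 0, fun _ => by show 0 < k; omega, fun h => absurd hv h⟩
    · obtain ⟨T, hT, hTc⟩ := Finset.exists_subset_card_eq (hMcard v hv)
      have e : T ≃ M v := Finset.equivOfCardEq hTc
      refine ⟨fun u => if h : u ∈ T then ((e ⟨u, h⟩ : M v) : ℕ) else 0, fun u => ?_, fun _ m hm => ?_⟩
      · dsimp only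
        split_ifs with h
        · have := (e ⟨u, h⟩).2
          simp only [M] at this
          exact mem_range.1 (mem_sdiff.1 this).1
        · omega
      · refine ⟨(e.symm ⟨m, hm⟩ : T), hT (e.symm ⟨m, hm⟩).2, ?_⟩
        dsimp only
        rw [dif_pos (e.symm ⟨m, hm⟩).2]
        simp
  choose g hg1 hg2 using hgex
  refine ⟨fun u v => if u ∈ I then (if v ∈ I then 0 else g v u) else
      (if v ∈ I then g u v else (if col u v < k then col u v else 0)), ?_, ?_, ?_⟩
  · intro u v
    by_cases hu : u ∈ I <;> by_cases hv : v ∈ I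
    · simp [hu, hv]
    · simp [hu, hv]
    · simp [hu, hv]
    · simp only [hu, hv, if_false]
      rw [hcol_symm u v]
  · intro u v
    dsimp only
    split_ifs with h1 h2 h3 h4
    · omega
    · exact hg1 _ _
    · exact hg1 _ _
    · exact h4
    · omega
  · intro v hv x hx
    by_cases hxM : x ∈ M v
    · obtain ⟨u, hu, hgu⟩ := hg2 v hv x hxM
      rw [hNI] at hu
      simp only [mem_filter, SimpleGraph.mem_neighborFinset] at hu
      refine ⟨u, hu.1, ?_⟩
      simp only [hv, hu.2, if_false, if_true]
      exact hgu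
    · have : x ∈ (K v).image (fun u => col v u) := by
        by_contra h
        exact hxM (mem_sdiff.2 ⟨mem_range.2 hx, h⟩)
      rw [mem_image] at this
      obtain ⟨u, hu, hcu⟩ := this
      have h1 := hK_adj v u hu
      refine ⟨u, h1.1, ?_⟩
      have h2 := hcol_lt v u h1.1 hv h1.2
      simp only [hv, h1.2, h2, if_false, if_true]
      exact hcu

end core

/-- For `k ≥ 1` at most the minimum degree, `L(G)` has a partition into `k` dominating sets, as
soon as `G` has a vertex. -/
theorem partition {V : Type} [Fintype V] [Nonempty V] (G : SimpleGraph V) [DecidableRel G.Adj]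
    (k : ℕ) (hk : 1 ≤ k) (hdeg : ∀ v, k ≤ G.degree v) : HasDomaticPartition G.lineGraph k := by
  classical
  obtain ⟨I, hI1, hI2⟩ := exists_maximal_indep G
  -- a colouring of pairs
  have hF : ∃ F : V → V → ℕ, (∀ u v, F u v = F v u) ∧ (∀ u v, F u v < k) ∧
      ∀ v, v ∉ I → ∀ c < k, ∃ u, G.Adj v u ∧ F v u = c := by
    rcases Nat.lt_or_ge 1 k with h | h
    · exact key G k h hdeg I hI2
    · have hk1 : k = 1 := le_antisymm h hk
      subst hk1
      refine ⟨fun _ _ => 0, fun _ _ => rfl, fun _ _ => Nat.one_pos, fun v hv c hc => ?_⟩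
      obtain ⟨u, _, hu⟩ := hI2 v hv
      exact ⟨u, hu, by show 0 = c; omega⟩
  obtain ⟨F, hF1, hF2, hF3⟩ := hF
  -- every edge has an end outside `I`
  have hdom : ∀ c : Fin k, IsDominating G.lineGraph
      {e : G.edgeSet | (⟨Sym2.lift ⟨F, hF1⟩ e.1, by
        induction e.1 with | h a b => exact hF2 a b⟩ : Fin k) = c} := by
    rintro ⟨c, hc⟩ ⟨e, he⟩
    have hout : ∃ w ∈ e, w ∉ I := by
      induction e with
      | h a b =>
        have hab : G.Adj a b := he
        by_cases ha : a ∈ I
        · refine ⟨b, by simp, fun hb => hI1 a ha b hb hab⟩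
        · exact ⟨a, by simp, ha⟩
    obtain ⟨w, hwe, hwI⟩ := hout
    obtain ⟨x, hx, hxc⟩ := hF3 w hwI c hc
    by_cases heq : e = s(w, x)
    · left
      show (⟨_, _⟩ : Fin k) = ⟨c, hc⟩
      rw [Fin.mk.injEq]
      show Sym2.lift ⟨F, hF1⟩ e = c
      rw [heq]
      exact hxc
    · right
      refine ⟨⟨s(w, x), hx⟩, ?_, ?_⟩
      · show (⟨_, _⟩ : Fin k) = ⟨c, hc⟩
        rw [Fin.mk.injEq]
        exact hxc
      · rw [SimpleGraph.lineGraph_adj_iff_exists]
        refine ⟨fun h => heq (congrArg Subtype.val h), w, hwe, by simp⟩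
  refine ⟨_, ?_, hdom⟩
  -- surjectivity: there is an edge
  intro c
  obtain ⟨v⟩ := (inferInstance : Nonempty V)
  have hpos : 0 < G.degree v := lt_of_lt_of_le hk (hdeg v)
  rw [← SimpleGraph.card_neighborFinset_eq_degree, Finset.card_pos] at hpos
  obtain ⟨u, hu⟩ := hpos
  rw [SimpleGraph.mem_neighborFinset] at hu
  rcases hdom c ⟨s(v, u), hu⟩ with h | ⟨x, hx, _⟩
  · exact ⟨_, h⟩
  · exact ⟨x, hx⟩

/-- **Zelinka's inequality**: `dom(L(G)) ≥ δ(G)` for every finite simple graph `G`. -/
theorem result {V : Type} [Fintype V] (G : SimpleGraph V) [DecidableRel G.Adj] :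
    G.minDegree ≤ domaticNumber G.lineGraph := by
  classical
  rcases Nat.eq_zero_or_pos G.minDegree with h | h
  · rw [h]; exact Nat.zero_le _
  · have hne : Nonempty V := by
      by_contra hcon
      rw [not_nonempty_iff] at hcon
      have : G.minDegree = 0 := by
        unfold SimpleGraph.minDegree
        rw [Finset.univ_eq_empty]
        rfl
      omega
    have hpart := partition G G.minDegree h (fun v => G.minDegree_le_degree v)
    have hbdd : BddAbove {k | HasDomaticPartition G.lineGraph k} := by
      refine ⟨Fintype.card G.edgeSet, ?_⟩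
      rintro k ⟨f, hf, -⟩
      have := Fintype.card_le_of_surjective f hf
      rwa [Fintype.card_fin] at this
    exact le_csSup hbdd hpart

end Pool.Agent.Results.MP_7b5b6d_co.EdgeDomatic
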